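import Pool.Agent.FS.ManyPrimes.Orbit

/-!
A doubling orbit of `n + φ n` whose members have at most 400 prime factors has period two.
-/

set_option autoImplicit false

open scoped Nat

namespace Pool.Agent.Results.MP_df8f2d_nt.ManyPrimes

open Pool.Agent.FS.ManyPrimes

theorem result (n r k₀ : ℕ) (hn : 0 < n) (hr : 0 < r)
    (hsol : ∀ k ≥ k₀, (fun m => m + φ m)^[k + r] n = 2 * (fun m => m + φ m)^[k] n)
    (hK : ∀ k ≥ k₀, ((fun m => m + φ m)^[k] n).primeFactors.card ≤ 400) : r = 2 := by
  have h0 : ∀ k, 0 < (fun m => m + φ m)^[k] n := fun k => by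
    induction k with
    | zero => exact hn
    | succ k ih => rw [Function.iterate_succ_apply']; exact Nat.add_pos_left ih _
  choose e u hu h1 using fun k => Nat.exists_eq_two_pow_mul_odd (h0 (k₀ + k)).ne'
  have h2 : ∀ k, 2 ^ (e k + 1) * u k = (fun m => m + φ m)^[k₀ + k + r] n := fun k => by
    rw [hsol _ (by omega), h1]
    ring
  exact orbit_two (e := e) (u := u) hr hu (fun k => by
      rw [h2, h2, show k₀ + (k + 1) + r = k₀ + k + r + 1 by ring, Function.iterate_succ_apply'])
    (fun k => by rw [h2, h2, ← hsol _ (by omega), add_assoc k₀ k])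
    fun k => by rw [h2]; exact hK _ (by omega)

end Pool.Agent.Results.MP_df8f2d_nt.ManyPrimes
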