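import Pool.Agent.Lib.MP_df8f2d_nt.Cnt.Asym

/-!
The number of `m ≤ x` with `g (g m) = 2 m`, `g n = n + φ n`, is at most
`√x exp (-(log log x) ^ 2 / 100)` for large `x`.
-/

open scoped Nat

namespace Pool.Agent.Results.MP_df8f2d_nt.TwoStepCount

theorem result : ∃ x₀ : ℕ, ∀ x : ℕ, x₀ ≤ x →
    (((Finset.Icc 1 x).filter fun m => (fun n => n + φ n)^[2] m = 2 * m).card : ℝ) ≤
      √x * Real.exp (-(Real.log (Real.log x) ^ 2 / 100)) := by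
  obtain ⟨T, hT⟩ : ∃ T : ℕ, 520 ≤ T := ⟨_, le_rfl⟩
  exact ⟨2 ^ 16 ^ T, fun x hx => Pool.Agent.Lib.MP_df8f2d_nt.Cnt.count_real T hT hx⟩

end Pool.Agent.Results.MP_df8f2d_nt.TwoStepCount
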